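import Pool.Agent.Run7.h527.TP.W
import Pool.Agent.Results.MP_290158_ag.MultiplicativeValues

/-!
# Period relations in the hypergeometric families at ALL integers near aliquot sums, cototients and arithmetic derivatives

Let `β_1, …, β_m` be rational numbers which are not integers. Consider the fibres `z = 1 / ξ` of the hypergeometric family
of Calabi–Yau type with the exponents `±β_j`. Let `F_1, …, F_k` be functions such as the sum of the proper divisors, the
cototient `m - φ(m)`, the arithmetic derivative (with `p' = 1` for primes and Leibniz' rule), or a positive combination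
`α m + β f(m)` with `f = σ`, `φ` or the arithmetic derivative. There is `c > 0` (which depends on the family, on `k`, `d`, `δ` and
`D` only) such that for `θ ≥ 0`, `τ ≤ 1` with `k (θ + 1 - τ) < c` the following is true. For all `(v_1, …, v_k) ∈ {1, …, N}^k`
whose entries have two prime factors `p ≠ q`, not dividing `v_i / (p q) ≥ 2`, with `p q ≥ v_i^τ`, but `N^(k - η)` of them, there
are, for ALL natural numbers `s_i` with `|s_i - F_i(v_i)| ≤ F_i(v_i)^θ`, no exceptional relations of degree `≤ δ` between the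
logarithms and the periods of the fibres `z_i = 1 / s_i`, with coefficients in `L V`, `L` any number field of degree `≤ d`, for a
given space `V` of constants.

Proof. Write `v = j p q`. Then `F(v) = a p q + b (p + q) + c` with integers `a ≠ 0`, `b`, `c` which depend on `j` only, and
`(a p + b) (a q + b) = a F(v) + b² - a c`. So for given `j` every value is taken for at most `N^ε` pairs `p`, `q` (the tool
`Run7/h527/TP`), and the starting theorem `HypergeometricAlgebraicPoints` bounds the number of the exceptional tuples of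
integers with a power saving. The starting file `MultiplicativeValues` treats the values themselves of multiplicative
functions, without windows.
-/

set_option autoImplicit false

namespace Pool.Agent.Results.MP_290158_ag.AliquotSums

open Pool.Agent.Results.MP_290158_ag.HypergeometricAlgebraicPoints (Exceptional House)
open Pool.Agent.Results.MP_290158_ag.MultiplicativeValues (house_nat house_finite)
open Run7.h527.TP (Bil Two windows_tuples aliquot cototient deriv sig comb)

/-- **Period relations near the values of functions which are bilinear in two large primes.** Let `β` be a finite non-empty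
family of rational numbers which are not integers. For all `k ≥ 1`, `d`, `δ`, `D` there is `c > 0` such that for all functions
`F_1, …, F_k` of the class `Bil` and all `θ ≥ 0`, `τ ≤ 1` with `k (θ + 1 - τ) < c` there are `η > 0` and `N_0` such that for all
`N ≥ N_0`, every `ℚ`-space `V` of constants of dimension `≤ D` and all constant matrices `Ω_i`, for all `v ∈ {1, …, N}^k` with
`Two τ (v_i)` for all `i` but at most `N^(k - η)`, for ALL tuples `s` of natural numbers with `|s_i - F_i(v_i)| ≤ F_i(v_i)^θ` the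
tuple of the fibres `z_i = 1 / s_i` is not exceptional. The sum of the proper divisors, the cototient, the arithmetic derivative
and their positive combinations with the identity are in the class `Bil`. -/
theorem result {m : ℕ} (hm : 1 ≤ m) (β : Fin m → ℚ) (hβ : ∀ j, ∀ a : ℤ, β j ≠ a) :
    (∀ k d δ D : ℕ, 1 ≤ k → ∃ c : ℝ, 0 < c ∧ ∀ F : Fin k → ℕ → ℕ, (∀ i, Bil (F i)) → ∀ θ τ : ℝ, 0 ≤ θ → τ ≤ 1 →
      k * (θ + 1 - τ) < c → ∃ η : ℝ, 0 < η ∧ ∃ N₀ : ℕ, ∀ N : ℕ, N₀ ≤ N →
      ∀ V : Submodule ℚ ℂ, Module.Finite ℚ V → Module.finrank ℚ V ≤ D →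
      ∀ Ω : Fin k → Matrix (Fin (2 * m)) (Fin (2 * m)) ℂ,
      ({v : Fin k → ℕ | (∀ i, 1 ≤ v i ∧ v i ≤ N ∧ Two τ (v i)) ∧
        ¬ ∀ s : Fin k → ℕ, (∀ i, |(s i : ℝ) - F i (v i)| ≤ (F i (v i) : ℝ) ^ θ) →
          ¬ Exceptional δ d V β Ω (fun i => ((s i : ℕ) : ℂ))}.ncard : ℝ) ≤ (N : ℝ) ^ ((k : ℝ) - η)) ∧
    Bil aliquot ∧ Bil cototient ∧ Bil deriv ∧
      (∀ α β : ℤ, (∀ m : ℕ, 2 ≤ m → 0 < α * m + β * sig m) → Bil (comb α β sig)) ∧
      (∀ α β : ℤ, (∀ m : ℕ, 2 ≤ m → 0 < α * m + β * Nat.totient m) → Bil (comb α β Nat.totient)) ∧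
      ∀ α β : ℤ, (∀ m : ℕ, 2 ≤ m → 0 < α * m + β * deriv m) → Bil (comb α β deriv) := by
  classical
  refine ⟨fun k d δ D hk => ?_, Run7.h527.TP.examples⟩
  obtain ⟨c, C, hc, h⟩ := (Pool.Agent.Results.MP_290158_ag.HypergeometricAlgebraicPoints.result hm β hβ).2.2
    k 1 d δ D le_rfl
  refine ⟨min c 1, lt_min hc one_pos, fun F hF θ τ hθ hτ hkc => ?_⟩
  obtain ⟨η, hη, N₀, hN₀⟩ := windows_tuples hk hF (c := min c 1) hθ hτ hkc (min_le_right _ _)
    (C₀ := |C| * 3 ^ k) (by positivity)
  refine ⟨η, hη, N₀, fun N hN V hV hVD Ω => ?_⟩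
  have h0 := hN₀ N hN {w : Fin k → ℕ | Exceptional δ d V β Ω (fun i => ((w i : ℕ) : ℂ))} (fun X hX => by
    have hX1 : (1 : ℝ) ≤ X := by exact_mod_cast hX
    have h1 := h V hV hVD Ω X hX
    obtain ⟨hf1, hf2⟩ := house_finite X
    have hfin : {ξ : Fin k → ℂ | (∀ i, House 1 X (ξ i)) ∧ Exceptional δ d V β Ω ξ}.Finite := by
      refine (Set.Finite.pi' (fun _ : Fin k => hf1)).subset ?_
      intro ξ hξ i
      exact hξ.1 i
    have h2 : {s : Fin k → ℕ | s ∈ {w : Fin k → ℕ | Exceptional δ d V β Ω (fun i => ((w i : ℕ) : ℂ))} ∧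
        ∀ i, s i ≤ X}.ncard ≤ {ξ : Fin k → ℂ | (∀ i, House 1 X (ξ i)) ∧ Exceptional δ d V β Ω ξ}.ncard := by
      refine Set.ncard_le_ncard_of_injOn (fun (w : Fin k → ℕ) (i : Fin k) => ((w i : ℕ) : ℂ)) ?_ ?_ hfin
      · intro w hw
        exact ⟨fun i => house_nat (hw.2 i), hw.1⟩
      · intro a _ b _ hab
        funext i
        have := congrFun hab i
        simp only at this
        exact_mod_cast this
    have h3 : (((({ξ : ℂ | House 1 X ξ}.ncard : ℕ) : ℝ)) ^ k) ≤ (3 * (X : ℝ)) ^ k := by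
      apply pow_le_pow_left₀ (by positivity)
      have : (({ξ : ℂ | House 1 X ξ}.ncard : ℕ) : ℝ) ≤ 2 * X + 1 := by exact_mod_cast hf2
      linarith
    calc (({s : Fin k → ℕ | s ∈ {w : Fin k → ℕ | Exceptional δ d V β Ω (fun i => ((w i : ℕ) : ℂ))} ∧
          ∀ i, s i ≤ X}.ncard : ℕ) : ℝ)
        ≤ (({ξ : Fin k → ℂ | (∀ i, House 1 X (ξ i)) ∧ Exceptional δ d V β Ω ξ}.ncard : ℕ) : ℝ) := by exact_mod_cast h2
      _ ≤ C * (X : ℝ) ^ (-c) * (({ξ : ℂ | House 1 X ξ}.ncard : ℕ) : ℝ) ^ k := h1
      _ ≤ |C| * (X : ℝ) ^ (-c) * (({ξ : ℂ | House 1 X ξ}.ncard : ℕ) : ℝ) ^ k := by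
          gcongr
          exact le_abs_self C
      _ ≤ |C| * (X : ℝ) ^ (-c) * (3 * (X : ℝ)) ^ k := by gcongr
      _ = |C| * 3 ^ k * (X : ℝ) ^ ((k : ℝ) - c) := by
          rw [mul_pow, show (k : ℝ) - c = -c + k by ring, Real.rpow_add (by linarith), Real.rpow_natCast]
          ring
      _ ≤ |C| * 3 ^ k * (X : ℝ) ^ ((k : ℝ) - min c 1) :=
          mul_le_mul_of_nonneg_left (Real.rpow_le_rpow_of_exponent_le hX1 (by
            have := min_le_left c 1
            linarith)) (by positivity))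
  refine le_trans (le_of_eq ?_) h0
  congr 2
  ext v
  constructor
  · rintro ⟨h1, h2⟩
    push Not at h2
    obtain ⟨s, h3, h4⟩ := h2
    exact ⟨h1, s, h4, h3⟩
  · rintro ⟨h1, s, h4, h3⟩
    exact ⟨h1, fun h5 => h5 s h3 h4⟩

end Pool.Agent.Results.MP_290158_ag.AliquotSums
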