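import Pool.Agent.Run7.h659.TT3
import Pool.Agent.Y921.DB.Fin

/-!
# Degree-bounded relations between the periods of all tuples of fibres of a family over a number field

Let `Z` be a fundamental matrix, regular at `z = 0`, of a system `f Z' = Z A` over `L(z)`, where `L` is a number field with
an embedding in `ℂ`, such that the entries of `Z` and of `W = Z⁻¹` are G-functions: for example the matrix of the
Gauss-Manin connection of `h^j` of ANY smooth projective family over an open part of the line over `L` with a good fibre at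
`z = 0`. Let `P_i(z)`, `i ∈ ι`, be any complex linear combinations of `1` and of the entries of `Z(z)`: for instance all the
periods of the fibre at `z`, or some of them.

1. There are `r > 0` and `G` such that for all `k`, `δ`, `D`, for any finite choice `κ j` of names of functions `P_i` for
each of `k` points, there are `c > 0` and `M` such that for every `ℚ`-space `V ⊂ ℂ` of dimension at most `D` and every window
`[N, N + N ^ c]` there is a set `S` of at most `M` integers with the following property. For **all** `k`-tuples of integers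
`m_j` of the window outside `S` with distances at least `G`, every relation of degree at most `δ` with coefficients in `V`
between the chosen periods `P_i(1 / m_j)` of the `k` fibres is the value at `(1 / m_1, …, 1 / m_k)` of a relation between
the functions `P_i(z_j)`, with coefficients which are polynomials in `z_1, …, z_k`, which holds identically for `|z_j| < r`.
There is no condition on the size of the coefficients, and no tuples are excluded besides those with a member in `S`.

2. Over every number field `K` all integers `m` of short windows but at most `M` satisfy the degree `δ` statement over `K`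
at `s = 1 / m`, for the functions `P_i`: every relation of degree at most `δ` over `K` is the value at `s` of a relation
over `K[z]`, of degree at most `δ`, which holds identically on the graph; so it is in the ideal of the fibre of the Zariski
closure of the graph.

3. Both is true for all the periods of the fibres of any finite number of families of cyclic covers
`C_z : y ^ N = (x - z) ^ e₀ ∏_j (x - a_j) ^ (e_j)`, with arbitrary distinct nonzero algebraic numbers `a_j` and arbitrary
exponents (hyperelliptic curves for `N = 2` and exponents `1`), taken together at the same points `z`, without further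
hypotheses.
-/

set_option autoImplicit false

open PowerSeries

namespace Pool.Agent.Results.MP_290158_ag.AllTuplesOfFibres

/-- The arithmetic conditions in the definition of a G-function over a number field: geometric growth of the conjugates of
the coefficients and of their common denominators. -/
def GCond {L : Type} [Field L] (g : L⟦X⟧) : Prop := ∃ C : ℝ, (∀ (φ : L →+* ℂ) (m : ℕ), ‖φ (coeff m g)‖ ≤ C ^ (m + 1)) ∧
  ∀ m, ∃ d : ℕ, 0 < d ∧ (d : ℝ) ≤ C ^ (m + 1) ∧ ∀ j ≤ m, IsIntegral ℤ ((d : L) * coeff j g)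

/-- `Z` is a fundamental matrix of G-functions of the system `f Z' = Z A`, regular at `0`, and `W` is its inverse. -/
structure IsGSystem {L : Type} [Field L] {n : ℕ} (f : Polynomial L) (A : Matrix (Fin n) (Fin n) (Polynomial L))
    (Z W : Matrix (Fin n) (Fin n) L⟦X⟧) : Prop where
  regular : f.coeff 0 ≠ 0
  ode : ∀ i j, (f : L⟦X⟧) * PowerSeries.derivative L (Z i j) = ∑ k, Z i k * (A k j : L⟦X⟧)
  inverse : W * Z = 1
  gZ : ∀ i j, GCond (Z i j)
  gW : ∀ i j, GCond (W i j)

/-- The functions `P_i(z)`: combinations of `1` (coefficient `c i none`) and of the entries `Z_q(z)` (coefficient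
`c i (some q)`). -/
noncomputable def combi {L : Type} [Field L] [Algebra L ℂ] {n : ℕ} (Z : Matrix (Fin n) (Fin n) L⟦X⟧) {ι : Type}
    (c : ι → Option (Fin n × Fin n) → ℂ) (z : ℂ) (i : ι) : ℂ :=
  c i none + ∑ q : Fin n × Fin n, c i (some q) * ∑' m : ℕ, algebraMap L ℂ (coeff m (Z q.1 q.2)) * z ^ m

/-- Every polynomial `F` of total degree at most `δ` with coefficients in `V` in the variables `⟨j, i⟩`, `i ∈ κ j`, which
vanishes at the numbers `P_(e j i)(1 / m_j)` is the value at `(1 / m_1, …, 1 / m_k)` of a polynomial `G` with coefficients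
in `ℂ[z_1, …, z_k]` such that `G(z, P_(e j i)(z_j)) = 0` for all `z` with `|z_j| < r`. -/
def Functional {ι : Type} (P : ℂ → ι → ℂ) (r : ℝ) {k : ℕ} {κ : Fin k → Type} (e : ∀ j, κ j → ι) (δ : ℕ)
    (V : Submodule ℚ ℂ) (m : Fin k → ℕ) : Prop :=
  ∀ F : MvPolynomial (Σ j, κ j) ℂ, F.totalDegree ≤ δ → (∀ s, F.coeff s ∈ V) →
    MvPolynomial.aeval (fun v : Σ j, κ j => P (1 / (m v.1 : ℂ)) (e v.1 v.2)) F = 0 →
    ∃ G : MvPolynomial (Σ j, κ j) (MvPolynomial (Fin k) ℂ),
      (∀ z : Fin k → ℂ, (∀ j, ‖z j‖ < r) → G.eval₂ (MvPolynomial.aeval z : MvPolynomial (Fin k) ℂ →ₐ[ℂ] ℂ).toRingHom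
        (fun v : Σ j, κ j => P (z v.1) (e v.1 v.2)) = 0) ∧
      G.map (MvPolynomial.eval fun j => 1 / (m j : ℂ)) = F

/-- In short windows outside a bounded number of integers all relations between the values of the functions `P_i` at all
tuples of separated points `1 / m_j` are values of functional relations. -/
def AllTuples {ι : Type} (P : ℂ → ι → ℂ) : Prop :=
  ∃ r : ℝ, 0 < r ∧ ∃ G : ℕ, ∀ (k : ℕ) (κ : Fin k → Type) [∀ j, Fintype (κ j)] (e : ∀ j, κ j → ι) (δ D : ℕ),
    ∃ M : ℕ, ∃ c : ℝ, 0 < c ∧ ∀ V : Submodule ℚ ℂ, Module.Finite ℚ V → Module.finrank ℚ V ≤ D → ∀ N : ℕ, 1 ≤ N →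
      ∃ S : Finset ℕ, S.card ≤ M ∧ ∀ m : Fin k → ℕ, (∀ i j, i ≠ j → (G : ℤ) ≤ |(m i : ℤ) - m j|) →
        (∀ j, N ≤ m j ∧ (m j : ℝ) ≤ N + (N : ℝ) ^ c ∧ m j ∉ S) →
          (∀ j, 1 / (m j : ℝ) < r) ∧ Functional P r e δ V m

/-- The degree `δ` statement over `K` at the point `s` of the line, for the functions `P`: every polynomial `F` of total
degree at most `δ` with coefficients in `K` which vanishes at `P(s)` is the value at `z = s` of a polynomial `G` over `K[z]`
of total degree at most `δ` with `G(z, P(z)) = 0` for all `z` with `|z| < r`. -/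
def DegreeStatement (K : Type) [Field K] [Algebra K ℂ] {ι : Type} (P : ℂ → ι → ℂ) (r : ℝ) (δ : ℕ) (s : K) : Prop :=
  ∀ F : MvPolynomial ι K, F.totalDegree ≤ δ → MvPolynomial.aeval (P (algebraMap K ℂ s)) F = 0 →
    ∃ G : MvPolynomial ι (Polynomial K), G.totalDegree ≤ δ ∧ G.map (Polynomial.evalRingHom s) = F ∧
      ∀ z : ℂ, ‖z‖ < r → G.eval₂ (Polynomial.aeval z : Polynomial K →ₐ[K] ℂ).toRingHom (P z) = 0

/-- The degree `δ` statement over `K` is true at `1 / m` for all integers `m` of short windows but at most `M`. -/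
def Windows {ι : Type} (P : ℂ → ι → ℂ) : Prop :=
  ∀ (K : Type) [Field K] [NumberField K] [Algebra K ℂ] (δ : ℕ), ∃ r : ℝ, 0 < r ∧ ∃ c : ℝ, 0 < c ∧ ∃ M : ℕ,
    ∀ N : ℕ, 1 ≤ N → ∃ S : Finset ℕ, S.card ≤ M ∧ ∀ m : ℕ, N ≤ m → (m : ℝ) ≤ N + (N : ℝ) ^ c → m ∉ S →
      1 / (m : ℝ) < r ∧ DegreeStatement K P r δ (1 / (m : K))

/-- `(x, y)` is a closed path (parametrised by `[0, 1]`, with continuously differentiable coordinates) on the affine curve
`y ^ N = x ^ e₀ ∏ (x - a j) ^ (e j)`, the fibre `C_0`, outside the disc `|x| ≤ ρ` and away from the points `x = a j`. -/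
structure IsClosedPath {n : ℕ} (N e₀ : ℕ) (a : Fin n → ℂ) (e : Fin n → ℕ) (ρ : ℝ) (x y : ℝ → ℂ) : Prop where
  smooth_x : ContDiff ℝ 1 x
  smooth_y : ContDiff ℝ 1 y
  closed_x : x 0 = x 1
  closed_y : y 0 = y 1
  curve : ∀ t ∈ Set.Icc (0 : ℝ) 1, y t ^ N = x t ^ e₀ * ∏ j, (x t - a j) ^ e j
  away : ∀ t ∈ Set.Icc (0 : ℝ) 1, (∀ j, x t ≠ a j) ∧ ρ < ‖x t‖

/-- The period `∮ x ^ i dx / y ^ k` on `C_z` over the path `(x, y (1 - z / x) ^ (e₀ / N))`, the parallel transport of
`(x, y)`, for `|z| < ρ`. -/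
noncomputable def period (N e₀ : ℕ) (x y : ℝ → ℂ) (z : ℂ) (k i : ℕ) : ℂ :=
  ∫ t in (0 : ℝ)..1, x t ^ i / (y t * (1 - z / x t) ^ ((e₀ : ℂ) / N)) ^ k * deriv x t

/-- A family of cyclic covers `C_z : y ^ N = (x - z) ^ e₀ ∏ (x - a j) ^ (e j)`, with `σ` closed paths and the bound `κ` for
the exponents `k` of the forms `x ^ i dx / y ^ k`. -/
structure Family where
  /-- the number of fixed branch points -/
  n : ℕ
  /-- the degree of the covers -/
  N : ℕ
  /-- the exponent of the moving branch point -/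
  e₀ : ℕ
  /-- the fixed branch points -/
  a : Fin n → ℂ
  /-- their exponents -/
  e : Fin n → ℕ
  /-- the forms are `x ^ i dx / y ^ k` with `i < n` and `1 ≤ k ≤ κ` -/
  κ : ℕ
  /-- the number of paths -/
  σ : ℕ
  /-- the radius of the excluded disc -/
  ρ : ℝ
  x : Fin σ → ℝ → ℂ
  y : Fin σ → ℝ → ℂ
  N_pos : 0 < N
  e₀_pos : 0 < e₀
  injective : Function.Injective a
  algebraic : ∀ j, IsAlgebraic ℚ (a j)
  ne_zero : ∀ j, a j ≠ 0
  ρ_pos : 0 < ρ
  path : ∀ s, IsClosedPath N e₀ a e ρ (x s) (y s)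

/-- All the periods of the curves `C_z` of `q` families, at the same point `z`. -/
noncomputable def periods {q : ℕ} (F : Fin q → Family) (z : ℂ)
    (v : Σ l, Fin (F l).σ × Fin (F l).κ × Fin (F l).n) : ℂ :=
  period (F v.1).N (F v.1).e₀ ((F v.1).x v.2.1) ((F v.1).y v.2.1) z (v.2.2.1 + 1) v.2.2.2

theorem allTuples_of {L : Type} [Field L] [NumberField L] [Algebra L ℂ] {n : ℕ} {f : Polynomial L}
    {A : Fin n → Fin n → Polynomial L} {Z W : Fin n → Fin n → L⟦X⟧} (h : Pool.Agent.Y921.DB.DatL f A Z W) {ι : Type}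
    (c : ι → Option (Fin n × Fin n) → ℂ) {P : ℂ → ι → ℂ} {r₀ : ℝ} (hr₀ : 0 < r₀)
    (hP : ∀ z : ℂ, ‖z‖ < r₀ → ∀ v, P z v = ∑ q, c v q * q.elim 1 fun q => Pool.Agent.Y921.DB.VL (Z q.1 q.2) z) :
    AllTuples P := by
  obtain ⟨n', F, B, Z', W', c', r₁, hD, hr₁, hc'⟩ := Pool.Agent.Run7.h659.TT.res_one h c
  obtain ⟨r, hr, -, G₀, -, hwin⟩ := Pool.Agent.Run7.h659.TT.win_all hD (lt_min hr₀ hr₁) (p := P) (c' := c')
    (fun z hz v => by
      rw [← hc' z (hz.trans_le (min_le_right _ _)) v]
      exact hP z (hz.trans_le (min_le_left _ _)) v)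
  exact ⟨r, hr, G₀, hwin⟩

theorem windows_of {L : Type} [Field L] [NumberField L] [Algebra L ℂ] {n : ℕ} {f : Polynomial L}
    {A : Fin n → Fin n → Polynomial L} {Z W : Fin n → Fin n → L⟦X⟧} (h : Pool.Agent.Y921.DB.DatL f A Z W) {ι : Type}
    [Fintype ι]
    (c : ι → Option (Fin n × Fin n) → ℂ) {P : ℂ → ι → ℂ} {r₀ : ℝ} (hr₀ : 0 < r₀)
    (hP : ∀ z : ℂ, ‖z‖ < r₀ → ∀ v, P z v = ∑ q, c v q * q.elim 1 fun q => Pool.Agent.Y921.DB.VL (Z q.1 q.2) z) :
    Windows P := by
  intro K _ _ _ δ
  obtain ⟨r, hr, hrr, c', hc', M, hM⟩ := Pool.Agent.Y921.DB.specL_win h (fun _ : Fin 1 => c) K δ hr₀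
  refine ⟨r, hr, c', hc', M, fun N hN => ?_⟩
  obtain ⟨S, hS, hS'⟩ := hM N hN
  refine ⟨S, hS, fun m h1 h2 h3 => ?_⟩
  obtain ⟨h4, h5⟩ := hS' m h1 h2 h3
  refine ⟨h4, ?_⟩
  have h5' : Pool.Agent.Y921.DB.SpecK K (fun (z : Fin 1 → ℂ) (v : Fin 1 × ι) => P (z v.1) v.2) r δ (fun _ => m) := by
    refine Pool.Agent.Y921.DB.SpecK.congr (fun z hz => funext fun v => ?_) (fun _ => h4) h5
    exact hP (z v.1) ((hz v.1).trans_le hrr) v.2
  have h6 : Pool.Agent.Y921.DB.Spec1 K P r δ m := by
    refine Pool.Agent.Y921.DB.SpecK.one (p := fun (z : Fin 1 → ℂ) (v : Fin 1 × ι) => P (z v.1) v.2)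
      (Equiv.ofBijective (fun v : ι => ((0 : Fin 1), v)) ⟨fun v w hvw => (Prod.ext_iff.1 hvw).2, fun w => ?_⟩)
      (fun z v => rfl) h5'
    obtain ⟨l, v⟩ := w
    obtain rfl : l = 0 := Subsingleton.elim _ _
    exact ⟨v, rfl⟩
  intro F hF h0
  have h7 : algebraMap K ℂ (1 / (m : K)) = 1 / (m : ℂ) := by simp
  rw [h7] at h0
  obtain ⟨G, hG1, hG2, hG3⟩ := h6 F hF h0
  exact ⟨G, hG1, hG3, hG2⟩

/-- **Theorem.** The two statements on all tuples of separated points, and on the degree `δ` statement over number fields,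
hold for all combinations of the entries of a fundamental matrix of G-functions of a regular system over a number field,
and for all the periods of any finite number of families of cyclic covers of the line. -/
theorem result :
    (∀ (L : Type) [Field L] [NumberField L] [Algebra L ℂ] (n : ℕ) (f : Polynomial L)
      (A : Matrix (Fin n) (Fin n) (Polynomial L)) (Z W : Matrix (Fin n) (Fin n) L⟦X⟧), IsGSystem f A Z W →
      ∀ (ι : Type) [Fintype ι] (c : ι → Option (Fin n × Fin n) → ℂ), AllTuples (combi Z c) ∧ Windows (combi Z c)) ∧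
    ∀ (q : ℕ) (F : Fin q → Family), AllTuples (periods F) ∧ Windows (periods F) := by
  refine ⟨?_, ?_⟩
  · intro L _ _ _ n f A Z W h ι _ c
    have hD : Pool.Agent.Y921.DB.DatL f (fun i j => A i j) (fun i j => Z i j) (fun i j => W i j) := by
      refine ⟨h.regular, h.ode, fun i j => ?_, h.gZ, h.gW⟩
      have h1 : (W * Z) i j = (1 : Matrix (Fin n) (Fin n) L⟦X⟧) i j := by rw [h.inverse]
      rw [Matrix.mul_apply] at h1
      rw [h1, Matrix.one_apply]
    have hP : ∀ z : ℂ, ‖z‖ < 1 → ∀ v, combi Z c z v =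
        ∑ q, c v q * q.elim 1 fun q => Pool.Agent.Y921.DB.VL (Z q.1 q.2) z := by
      intro z _ v
      rw [Fintype.sum_option]
      simp only [Option.elim_none, Option.elim_some, mul_one]
      rfl
    exact ⟨allTuples_of hD c one_pos hP, windows_of hD c one_pos hP⟩
  · intro q F
    let F' : Pool.Agent.Y921.DB.Fam q :=
      { n := fun l => (F l).n, N := fun l => (F l).N, e₀ := fun l => (F l).e₀, κ := fun l => (F l).κ,
        σ := fun l => (F l).σ, a := fun l => (F l).a, e := fun l => (F l).e, ρ := fun l => (F l).ρ,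
        x := fun l => (F l).x, y := fun l => (F l).y, hN := fun l => (F l).N_pos, he := fun l => (F l).e₀_pos,
        ha := fun l => (F l).injective, halg := fun l => (F l).algebraic, ha0 := fun l => (F l).ne_zero,
        hρ := fun l => (F l).ρ_pos,
        path := fun l s => ⟨((F l).path s).smooth_x, ((F l).path s).smooth_y, ((F l).path s).closed_x,
          ((F l).path s).closed_y, ((F l).path s).curve, ((F l).path s).away⟩ }
    obtain ⟨L, _, _, _, M, f, A, Z, W, lam, r₀, hD, hr₀, hrρ, hl0, hrep⟩ := F'.rep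
    have hP : ∀ z : ℂ, ‖z‖ < r₀ → ∀ v, periods F z v =
        ∑ q, lam v.1 v q * q.elim 1 fun q => Pool.Agent.Y921.DB.VL (Z q.1 q.2) z := fun z hz v =>
      hrep (fun _ => z) (fun _ => hz) v
    exact ⟨allTuples_of hD (fun v => lam v.1 v) hr₀ hP, windows_of hD (fun v => lam v.1 v) hr₀ hP⟩

end Pool.Agent.Results.MP_290158_ag.AllTuplesOfFibres
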