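import Pool.Agent.Run7.h696.CA.FinA
import Pool.Agent.Run7.h225.HG.Tup
import Pool.Agent.Run7.h696.CF.Ev

/-!
# Periods of hypergeometric motives at correlated algebraic fibres: almost always there are no relations of bounded degree
between the periods of the fibres `1 / ℓ_1(ξ), …, 1 / ℓ_r(ξ)`, except those of the single motives

Let `α_1, …, α_n` be rational numbers which are not integers with the sum `0`, `n ≥ 2`, `θ = z d/dz` and
`Q(x) = ∏_j (x + α_j)`. The fibres of the family of hypergeometric motives `θ^n - z Q(θ)` occur in the cohomology of smooth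
projective varieties (toric hypersurfaces). Their periods near `z = 0` are linear combinations with constant coefficients of
the numbers `(θ^i f_j)(z)`, where `f_0, …, f_{n-1}` is the basis of solutions given by the Frobenius method (the monodromy at
`0` is maximally unipotent).

For finitely many such equations `e_j` and linear polynomials `ℓ_j(t) = a_j t + b_j` over `ℚ` we consider the `j`-th family at
the fibre `1 / ℓ_j(ξ)`, for example one family at the fibres `1 / ξ, 1 / (ξ - 1), …, 1 / (ξ - s)`. The fibres are correlated: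
the points of the product family lie on one rational curve in the product of the bases. The period torsor of the product of
the motives is expected to be the product of the torsors `SL_n` (general equations) and `Sp_n` (self-dual equations), that is
to say that there are no algebraic cycles on the products of the fibres of different members of the list besides the obvious
ones, and the conjecture of Grothendieck predicts that the period matrices satisfy no other relations. We prove that this is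
so, for relations of bounded degree and arbitrary constants, for almost all tuples `(ξ_1, …, ξ_k)` of algebraic integers of
bounded degree, simultaneously for all members of the list; and even for relations of growing degree, growing lists and
number fields of growing degree.

The condition on the equations and polynomials is that if `ℓ_i` and `ℓ_j` have the value `1` at the same point then the
exponents at infinity of `e_i` are not those of `e_j` or of its dual modulo `ℤ`, and that there is an integer `τ` with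
`ℓ_j(τ) ≤ 0` for all `j`. If all `a_j` are positive, then there is always such a `τ`.

Proof of the functional part (`Pool/Agent/Run7/h696/CF`): the pull-back of the `j`-th system has a transvection as local
monodromy at the point with `ℓ_j = 1` and no other singular point between this point and infinity on the side of `τ` where it
lies. The local monodromy at the singular points with the largest distance from `τ` and their conjugates by the monodromy
at infinity generate the product of the groups of the families which are singular there; so these families may be replaced by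
constants in all relations, and one goes on with the remaining ones. The arithmetic part is a theorem on G-functions at
algebraic points of bounded degree (`Pool/Agent/Y916`).
-/

set_option autoImplicit false

open PowerSeries Pool.Agent.Y119.HZ Pool.Agent.Run7.h225.HG Pool.Agent.Run7.h696.CF Run7.h893.HO Pool.Agent.Run7.h696.CA

namespace Pool.Agent.Results.MP_290158_ag.CorrelatedFibres

/-- A hypergeometric equation `θ^n f = z ∏_j (θ + α_j) f`. -/
structure Eqn where
  n : ℕ
  α : Fin n → ℚ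

/-- the dual equation (the exponents at infinity are `-α_j`) -/
def Eqn.dual (e : Eqn) : Eqn := ⟨e.n, fun j => -e.α j⟩

/-- the multiset of the fractional parts of the `α_j` -/
def Eqn.frac (e : Eqn) : Multiset ℚ := Multiset.map (fun j => Int.fract (e.α j)) Finset.univ.val

/-- the polynomial `Q = ∏_j (x + α_j)` -/
noncomputable def Eqn.poly (e : Eqn) : Polynomial ℚ := ∏ j, (Polynomial.X + Polynomial.C (e.α j))

/-- `Q(-x) = Q(x)` -/
def Eqn.Symplectic (e : Eqn) : Prop := e.poly.comp (-Polynomial.X) = e.poly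

/-- The order is at least two, the exponents at infinity are not integers, their sum is `0`, and either the fractional parts
of the `α_j` and of the `-α_j` are different multisets or `Q(-x) = Q(x)`. -/
def Eqn.Admissible (e : Eqn) : Prop :=
  2 ≤ e.n ∧ (∀ j, ∀ a : ℤ, e.α j ≠ a) ∧ ∑ j, e.α j = 0 ∧ (e.frac ≠ e.dual.frac ∨ e.Symplectic)

/-- A list of equations `e_j`, linear polynomials `ℓ_j(t) = a_j t + b_j` and an integer `τ`: the equations are admissible,
`a_j ≠ 0` and `ℓ_j(τ) ≤ 0`, and if two polynomials have the value `1` at the same point, then the exponents at infinity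
of the two equations, and of one of them and of the dual of the other one, are different modulo `ℤ`. -/
def Good {r : ℕ} (e : Fin r → Eqn) (a b : Fin r → ℚ) (τ : ℤ) : Prop :=
  (∀ j, (e j).Admissible ∧ a j ≠ 0 ∧ a j * τ + b j ≤ 0) ∧
  ∀ i j, i ≠ j → (1 - b i) / a i = (1 - b j) / a j → (e i).frac ≠ (e j).frac ∧ (e i).frac ≠ (e j).dual.frac

/-- the power series `k + ε` in the variable `ε` -/
noncomputable def shift (k : ℕ) : PowerSeries ℚ := C (k : ℚ) + X

/-- `a_k(ε) = ∏_{l < k} Q(l + ε) / (l + 1 + ε)^n`. The series `∑_k a_k(ε) z^(k + ε)` solves the equation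
`(θ^n - z Q(θ)) f = ε^n z^ε`, hence its coefficients `f_j` at `ε^j` with `j < n` are solutions of the homogeneous
equation. -/
noncomputable def Eqn.frob (e : Eqn) (k : ℕ) : PowerSeries ℚ :=
  ∏ l ∈ Finset.range k, (Polynomial.aeval (shift l) e.poly * ((shift (l + 1))⁻¹) ^ e.n)

/-- The matrix with the entries `(θ^i f_j)(z)`, `|z| < 1`, where `f_j(z)` is the coefficient of `ε^j` in the series
`∑_k a_k(ε) z^(k + ε)`, `z^ε = ∑_a (log z)^a ε^a / a!`, with the value `l` of `log z`. -/
noncomputable def Eqn.Y (e : Eqn) (z l : ℂ) : Matrix (Fin e.n) (Fin e.n) ℂ :=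
  Matrix.of fun i j => ∑ a ∈ Finset.range ((j : ℕ) + 1), l ^ a / (a.factorial : ℂ) *
    ∑' k : ℕ, ((coeff ((j : ℕ) - a) (shift k ^ (i : ℕ) * e.frob k) : ℚ) : ℂ) * z ^ k

/-- The matrix of the alternating form: the entry `(i, j)` is `(-1)^i q_{i+j+1-n}` for `i + j + 1 ≥ n` and `0`
otherwise, where `q_l` are the coefficients of `Q`. -/
noncomputable def Eqn.J (e : Eqn) : Matrix (Fin e.n) (Fin e.n) ℂ :=
  Matrix.of fun i j => if e.n ≤ (i : ℕ) + j + 1 then (((-1) ^ (i : ℕ) * e.poly.coeff (i + j + 1 - e.n) : ℚ) : ℂ) else 0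

/-- The torsor (a group) of the equation: `det X = 1`, and `Xᵀ J X = J` if `Q(-x) = Q(x)`. -/
def Eqn.G (e : Eqn) : Set (Matrix (Fin e.n) (Fin e.n) ℂ) :=
  {X | X.det = 1 ∧ (e.Symplectic → X.transpose * e.J * X = e.J)}

/-- the coordinates: `k` numbers and `k` lists of matrices -/
abbrev Coord {r : ℕ} (e : Fin r → Eqn) (k : ℕ) : Type := Σ _ : Fin k, Option (Σ j : Fin r, Fin (e j).n × Fin (e j).n)

/-- the point with the coordinates `l_i` and the entries of the matrices `X_ij` -/
def point {r k : ℕ} {e : Fin r → Eqn} (l : Fin k → ℂ) (X : Fin k → ∀ j, Matrix (Fin (e j).n) (Fin (e j).n) ℂ) :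
    Coord e k → ℂ
  | ⟨i, none⟩ => l i
  | ⟨i, some ⟨j, p⟩⟩ => X i j p.1 p.2

/-- `ξ` is an algebraic integer of degree at most `g` all of whose conjugates have absolute value at most `T` -/
def House (g T : ℕ) (ξ : ℂ) : Prop :=
  IsIntegral ℤ ξ ∧ (minpoly ℚ ξ).natDegree ≤ g ∧ ∀ z : ℂ, Polynomial.aeval z (minpoly ℚ ξ) = 0 → ‖z‖ ≤ T

/-- For a logarithm `l` of `ξ - τ` the logarithm `l + Log a + Log(ℓ(ξ) / (a (ξ - τ)))` of `ℓ(ξ)`, `ℓ(t) = a t + b`, with
principal values `Log`. -/
noncomputable def branch (a b : ℚ) (τ : ℤ) (ξ l : ℂ) : ℂ :=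
  l + Complex.log (a : ℂ) + Complex.log (((a : ℂ) * ξ + b) / ((a : ℂ) * (ξ - τ)))

/-- some `ξ_i` is `τ` or some `ℓ_j(ξ_i)` has absolute value at most `1` -/
def Small {r k : ℕ} (a b : Fin r → ℚ) (τ : ℤ) (ξ : Fin k → ℂ) : Prop :=
  ∃ i, ξ i = τ ∨ ∃ j, ‖(a j : ℂ) * ξ i + b j‖ ≤ 1

/-- There are values `l_i` of the logarithms of the `ξ_i - τ`, a number field `L` of degree `≤ d` and a polynomial relation of
degree `≤ δ` with coefficients in `L V` between the numbers `l_i` and the entries of the matrices `Y_j(1 / ℓ_j(ξ_i)) Ω_ij`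
(with the branches of the logarithms of the `ℓ_j(ξ_i)` given by `l_i`), which does not vanish identically on the set of the
points with arbitrary coordinates `l'_i` and the entries of `X_ij Ω_ij` with `X_ij` in the torsor of `e_j`. -/
def Exceptional {r k : ℕ} (δ d : ℕ) (V : Submodule ℚ ℂ) (e : Fin r → Eqn) (a b : Fin r → ℚ) (τ : ℤ)
    (Ω : Fin k → ∀ j, Matrix (Fin (e j).n) (Fin (e j).n) ℂ) (ξ : Fin k → ℂ) : Prop :=
  ∃ l : Fin k → ℂ, (∀ i, Complex.exp (l i) = ξ i - τ) ∧
    ∃ L : IntermediateField ℚ ℂ, FiniteDimensional ℚ L ∧ Module.finrank ℚ L ≤ d ∧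
    ∃ P : MvPolynomial (Coord e k) ℂ, P.totalDegree ≤ δ ∧ (∀ s, P.coeff s ∈ Submodule.span L (V : Set ℂ)) ∧
      MvPolynomial.aeval (point l fun i j =>
        (e j).Y (1 / ((a j : ℂ) * ξ i + b j)) (-branch (a j) (b j) τ (ξ i) (l i)) * Ω i j) P = 0 ∧
      ∃ (l' : Fin k → ℂ) (X : Fin k → ∀ j, Matrix (Fin (e j).n) (Fin (e j).n) ℂ),
        (∀ i j, X i j ∈ (e j).G) ∧ MvPolynomial.aeval (point l' fun i j => X i j * Ω i j) P ≠ 0

/-- the numerator and the denominator are at most `B` -/
def RatSize (q : ℚ) (B : ℕ) : Prop := |q.num| ≤ B ∧ q.den ≤ B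

/-- the orders of the equations, the numerators and the denominators of their exponents and of the coefficients of the
`ℓ_j`, and `|τ|` are at most `B` -/
def Size {r : ℕ} (e : Fin r → Eqn) (a b : Fin r → ℚ) (τ : ℤ) (B : ℕ) : Prop :=
  (∀ j, (e j).n ≤ B ∧ ∀ i, RatSize ((e j).α i) B) ∧ (∀ j, RatSize (a j) B) ∧ (∀ j, RatSize (b j) B) ∧ |τ| ≤ B

/-- For every `ℚ`-space `V` of complex numbers of dimension `≤ D` and all complex matrices `Ω_ij` the number of the small or
exceptional `k`-tuples (for relations of degree `≤ δ` and number fields of degree `≤ d`) of algebraic integers of degree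
`≤ g` with conjugates of size `≤ T` is at most `ε N^k`, where `N` is the number of all these algebraic integers. -/
def Bound {r : ℕ} (k g d δ D : ℕ) (e : Fin r → Eqn) (a b : Fin r → ℚ) (τ : ℤ) (T : ℕ) (ε : ℝ) : Prop :=
  ∀ V : Submodule ℚ ℂ, Module.Finite ℚ V → Module.finrank ℚ V ≤ D →
    ∀ Ω : Fin k → ∀ j, Matrix (Fin (e j).n) (Fin (e j).n) ℂ,
    {ξ : Fin k → ℂ | (∀ i, House g T (ξ i)) ∧ (Small a b τ ξ ∨ Exceptional δ d V e a b τ Ω ξ)}.Finite ∧
    (({ξ : Fin k → ℂ | (∀ i, House g T (ξ i)) ∧ (Small a b τ ξ ∨ Exceptional δ d V e a b τ Ω ξ)}.ncard : ℕ) : ℝ) ≤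
      ε * (({ξ : ℂ | House g T ξ}.ncard : ℕ) : ℝ) ^ k

theorem point_eq {r k : ℕ} {e : Fin r → Eqn} (l : Fin k → ℂ) (X : Fin k → ∀ j, Matrix (Fin (e j).n) (Fin (e j).n) ℂ) :
    point l X = pjc (n := fun j => (e j).n) l X := by
  funext v
  obtain ⟨i, _ | ⟨j, p⟩⟩ := v
  · rfl
  · rfl

theorem frob_eq (e : Eqn) (k : ℕ) : e.frob k = Pool.Agent.Y119.HY.aq e.n e.poly k := rfl

theorem J_eq (e : Eqn) : e.J = Pool.Agent.Y119.HY.cm (Pool.Agent.Y119.HY.Jm e.n e.poly) := by
  ext i j
  rw [Pool.Agent.Y119.HY.cm_apply]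
  unfold Eqn.J Pool.Agent.Y119.HY.Jm
  rw [Matrix.of_apply, Matrix.of_apply]
  split_ifs
  · rfl
  · simp

theorem Y_eq (e : Eqn) (z l : ℂ) : e.Y z l = Pool.Agent.Y119.HY.Hf (Pool.Agent.Y119.HY.Hc e.n e.poly) z *
    Pool.Agent.Y119.HY.E (Pool.Agent.Y119.HY.cm (Pool.Agent.Y119.HY.Am e.n)) l := by
  ext i j
  unfold Eqn.Y
  rw [Matrix.of_apply, Matrix.mul_apply]
  have hE : ∀ c : Fin e.n, Pool.Agent.Y119.HY.E (Pool.Agent.Y119.HY.cm (Pool.Agent.Y119.HY.Am e.n))
      l c j = ∑ a ∈ Finset.range e.n, if (j : ℕ) = c + a then l ^ a / (a.factorial : ℂ) else 0 := by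
    intro c
    unfold Pool.Agent.Y119.HY.E
    rw [Matrix.sum_apply]
    refine Finset.sum_congr rfl fun a _ => ?_
    rw [Matrix.smul_apply, ← Pool.Agent.Y119.HY.cm_pow, Pool.Agent.Y119.HY.cm_apply, Pool.Agent.Y119.HY.Am_pow, smul_eq_mul]
    split_ifs
    · push_cast
      ring
    · simp
  simp only [hE, Finset.mul_sum]
  rw [Finset.sum_comm]
  have hsub : Finset.range ((j : ℕ) + 1) ⊆ Finset.range e.n := by
    intro a ha
    rw [Finset.mem_range] at ha ⊢
    have := j.2
    omega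
  refine Finset.sum_subset_zero_on_sdiff hsub (fun a ha => ?_) fun a ha => ?_
  · rw [Finset.mem_sdiff, Finset.mem_range, Finset.mem_range] at ha
    refine Finset.sum_eq_zero fun c _ => ?_
    rw [if_neg (by omega), mul_zero]
  · rw [Finset.mem_range] at ha
    have hj := j.2
    rw [Finset.sum_eq_single (⟨(j : ℕ) - a, by omega⟩ : Fin e.n)]
    · rw [if_pos (by simp only; omega), mul_comm]
      congr 1
    · intro c _ hc
      rw [if_neg, mul_zero]
      intro h
      apply hc
      apply Fin.ext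
      simp only
      omega
    · intro h
      exact absurd (Finset.mem_univ _) h

theorem quad {e : Eqn} (he : e.Admissible) : Run7.h893.HO.QG e.n e.poly := QG_QA he.1 (nonint he.2.1)

theorem dat {r : ℕ} {e : Fin r → Eqn} {a b : Fin r → ℚ} {τ : ℤ} (he : Good e a b τ) {L : ℝ} (hL : 0 < L)
    (h : ∀ j, |((1 / a j : ℚ) : ℝ)| + |((-b j / a j - τ : ℚ) : ℝ)| ≤ L) :
    DatL (fun j => (e j).n) (fun j => (e j).poly) (fun j => ((-b j / a j - τ : ℚ) : ℝ)) (fun j => ((1 / a j : ℚ) : ℝ)) L where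
  q := fun j => quad (he.1 j).1
  q' := fun j => by
    show Run7.h893.HO.QG _ (dq _ (QA (e j).α))
    rw [dq_QA]
    exact QG_QA (he.1 j).1.1 (nonint' (he.1 j).1.2.1)
  tr := fun j => (QA_coeff (by have := (he.1 j).1.1; omega) (e j).α).trans (he.1 j).1.2.2.1
  ty := fun j => by
    rcases (he.1 j).1.2.2.2 with h | h
    · refine Or.inr fun h2 => h ?_
      have h3 : RatEq (QA (e j).α) (dq (e j).n (QA (e j).α)) := h2
      rw [dq_QA] at h3
      exact RatEq_QA h3
    · exact Or.inl (QDeven (quad (he.1 j).1) h)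
  c0 := fun j => by
    have h2 : (1 / a j : ℚ) ≠ 0 := one_div_ne_zero (he.1 j).2.1
    exact_mod_cast h2
  gc := fun j => by
    have h1 := par_gc (he.1 j).2.2
    exact_mod_cast h1
  L0 := hL
  cL := h
  sep := fun i j hij hc _ => by
    have h1 : (1 / a i + (-b i / a i - τ) : ℚ) = 1 / a j + (-b j / a j - τ) := by exact_mod_cast hc
    rw [par_s, par_s] at h1
    have h2 : (1 - b i) / a i = (1 - b j) / a j := by linarith
    obtain ⟨h3, h4⟩ := he.2 i j hij h2
    refine ⟨fun h => h3 (RatEq_QA h), fun h => h4 ?_⟩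
    have h5 : RatEq (QA (e i).α) (dq (e j).n (QA (e j).α)) := h
    rw [dq_QA] at h5
    exact RatEq_QA h5

theorem G_eq {e : Eqn} (he : e.Admissible) : e.G = Gp e.n e.poly := by
  ext X
  unfold Eqn.G Gp
  rw [J_eq]
  refine and_congr_right fun _ => ⟨fun h h2 => h ?_, fun h h2 => h ?_⟩
  · exact evenQD h2
  · exact QDeven (quad he) h2

theorem mem_G {e : Eqn} (he : e.Admissible) {z : ℂ} (hz : ‖z‖ < 1) (l : ℂ) : e.Y z l ∈ e.G := by
  rw [G_eq he, Y_eq]
  exact Gp_mul (Hf_mem (quad he) ((QA_coeff (by have := he.1; omega) e.α).trans he.2.2.1) hz) (Gp_E (quad he) _)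

theorem fixed {r : ℕ} (e : Fin r → Eqn) (a b : Fin r → ℚ) (τ : ℤ) (he : Good e a b τ) (k g d δ D : ℕ) (hg : 1 ≤ g) :
    ∃ c C : ℝ, 0 < c ∧ ∀ T : ℕ, 1 ≤ T → Bound k g d δ D e a b τ T (C * (T : ℝ) ^ (-c)) := by
  classical
  set L : ℕ := 1 + ∑ j, ⌈|(1 / a j : ℚ)| + |(-b j / a j - τ : ℚ)|⌉₊ with hLd
  have hLle : ∀ j, |(1 / a j : ℚ)| + |(-b j / a j - τ : ℚ)| ≤ (L : ℚ) := by
    intro j
    have h1 : ⌈|(1 / a j : ℚ)| + |(-b j / a j - τ : ℚ)|⌉₊ ≤ ∑ j, ⌈|(1 / a j : ℚ)| + |(-b j / a j - τ : ℚ)|⌉₊ :=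
      Finset.single_le_sum (f := fun j => ⌈|(1 / a j : ℚ)| + |(-b j / a j - τ : ℚ)|⌉₊)
        (fun _ _ => Nat.zero_le _) (Finset.mem_univ j)
    exact (Nat.le_ceil _).trans (by exact_mod_cast (by omega : _ ≤ L))
  have hL1 : 1 ≤ L := by omega
  have hLR : (0 : ℝ) < L := by exact_mod_cast hL1
  have hLle' : ∀ j, |((1 / a j : ℚ) : ℝ)| + |((-b j / a j - τ : ℚ) : ℝ)| ≤ (L : ℝ) := fun j => by
    exact_mod_cast hLle j
  have hD := dat he hLR hLle'
  have hWW := fun j => wex_QA (α := (e j).α) (he.1 j).1.1 (he.1 j).1.2.1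
  choose W' hW1 hW2 using hWW
  have hS : ∀ j, Sys (e j).n (Pool.Agent.Y119.HY.Am (e j).n) (Pool.Agent.Y119.HY.Bm (e j).n (e j).poly)
      (Hp (e j).n (e j).poly) (W' j) := by
    intro j
    refine Fm.sys (hD.q j) (fun a b => ?_) (hW1 j) (hW2 j)
    unfold Hp
    rw [Matrix.of_apply]
    exact sdc_hps_g (Fintype.card_fin _) (nonint (he.1 j).1.2.1) (hD.q j) a b
  obtain ⟨c, hc, C, hC, h1⟩ := tup_ca (n := fun j => (e j).n) (Q := fun j => (e j).poly) hL1 hS hD (fun j => (he.1 j).2.1)
    k g δ d D hg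
  refine ⟨c, C, hc, fun T hT V hV hVD Ω => ?_⟩
  obtain ⟨h2, h3⟩ := h1 V hV hVD Ω T hT
  have hsub : {ξ : Fin k → ℂ | (∀ i, House g T (ξ i)) ∧ (Small a b τ ξ ∨ Exceptional δ d V e a b τ Ω ξ)} ⊆
      {ξ : Fin k → ℂ | (∀ i, Pool.Agent.Y916.Sl.SInt g T (ξ i)) ∧
        ((∃ i, ‖ξ i - τ‖ ≤ L) ∨ ExcC (fun j => (e j).n) (fun j => (e j).poly) a b τ δ d V Ω ξ)} := by
    rintro ξ ⟨hξ, hE⟩
    refine ⟨fun i => hξ i, ?_⟩
    by_cases hs : ∃ i, ‖ξ i - τ‖ ≤ L
    · exact Or.inl hs
    right
    push Not at hs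
    have hns : ¬ Small a b τ ξ := by
      rintro ⟨i, h4 | ⟨j, h4⟩⟩
      · have h5 := hs i
        rw [h4, sub_self, norm_zero] at h5
        linarith
      · exact absurd h4 (not_le.2 (ne_of_big (he.1 j).2.1 (hLle' j) (hs i)).2.2)
    obtain ⟨l, hl, K, hL1, hL2, P, hPd, hPc, hP0, l', X, hX, hPX⟩ := hE.resolve_left hns
    refine ⟨l, hl, K, hL1, hL2, P, hPd, hPc, ?_, l', X, fun i j => ?_, ?_⟩
    · rw [point_eq] at hP0
      simp only [Y_eq] at hP0
      exact hP0
    · rw [← G_eq (he.1 j).1]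
      exact hX i j
    · rw [point_eq] at hPX
      exact hPX
  refine ⟨h2.subset hsub, le_trans ?_ h3⟩
  exact_mod_cast Set.ncard_le_ncard hsub h2

theorem diag {F : ℕ → ℕ → Prop} (h0 : ∀ T, F 0 T) (h : ∀ w, ∀ᶠ T in Filter.atTop, F w T) :
    ∃ w : ℕ → ℕ, Filter.Tendsto w Filter.atTop Filter.atTop ∧ ∀ T, F (w T) T := by
  classical
  have h1 : ∀ w, ∃ T₀, ∀ T, T₀ ≤ T → F w T := fun w => Filter.eventually_atTop.1 (h w)
  choose T₀ hT₀ using h1
  refine ⟨fun T => Nat.findGreatest (fun w => T₀ w ≤ T) T, ?_, fun T => ?_⟩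
  · rw [Filter.tendsto_atTop]
    intro b
    filter_upwards [Filter.eventually_ge_atTop (max b (T₀ b))] with T hT
    exact Nat.le_findGreatest ((le_max_left _ _).trans hT) ((le_max_right _ _).trans hT)
  · show F (Nat.findGreatest (fun w => T₀ w ≤ T) T) T
    by_cases h2 : Nat.findGreatest (fun w => T₀ w ≤ T) T = 0
    · rw [h2]
      exact h0 T
    · have h3 := Nat.findGreatest_of_ne_zero (P := fun w => T₀ w ≤ T) rfl h2
      exact hT₀ _ T h3

theorem rat_finite (B : ℕ) : {q : ℚ | RatSize q B}.Finite := by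
  refine (((Set.finite_Icc (-(B : ℤ)) B).prod (Set.finite_Iic B)).image fun p : ℤ × ℕ => (p.1 : ℚ) / p.2).subset ?_
  rintro q ⟨hq1, hq2⟩
  exact ⟨(q.num, q.den), ⟨abs_le.1 hq1, hq2⟩, Rat.num_div_den q⟩

theorem eqn_finite (r B : ℕ) : {e : Fin r → Eqn | ∀ j, (e j).n ≤ B ∧ ∀ i, RatSize ((e j).α i) B}.Finite := by
  have h2 : {e : Eqn | e.n ≤ B ∧ ∀ i, RatSize (e.α i) B}.Finite := by
    refine ((Set.finite_Iic B).biUnion (t := fun n => (fun α : Fin n → ℚ => (⟨n, α⟩ : Eqn)) ''
      {α | ∀ j, α j ∈ {q : ℚ | RatSize q B}}) fun n _ => (Set.Finite.pi' fun _ => rat_finite B).image _).subset ?_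
    rintro ⟨n, α⟩ ⟨hn, hα⟩
    exact Set.mem_biUnion (show n ∈ Set.Iic B from hn) ⟨α, hα, rfl⟩
  exact Set.Finite.pi' fun _ => h2

theorem pol_finite (r B : ℕ) : {a : Fin r → ℚ | ∀ j, RatSize (a j) B}.Finite :=
  Set.Finite.pi' fun _ => rat_finite B

theorem int_finite (B : ℕ) : {τ : ℤ | |τ| ≤ B}.Finite :=
  (Set.finite_Icc (-(B : ℤ)) B).subset fun _ h => abs_le.1 h

theorem bound_ev {r : ℕ} (e : Fin r → Eqn) (a b : Fin r → ℚ) (τ : ℤ) (he : Good e a b τ) (k g w : ℕ) (hg : 1 ≤ g)
    (hw : 1 ≤ w) : ∀ᶠ T : ℕ in Filter.atTop, Bound k g w w w e a b τ T (1 / (w : ℝ)) := by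
  obtain ⟨c, C, hc, h⟩ := fixed e a b τ he k g w w w hg
  have hw' : (0 : ℝ) < 1 / w := by positivity
  have h1 : Filter.Tendsto (fun T : ℕ => C * (T : ℝ) ^ (-c)) Filter.atTop (nhds 0) := by
    have h2 := ((tendsto_rpow_neg_atTop hc).comp tendsto_natCast_atTop_atTop).const_mul C
    rwa [mul_zero] at h2
  filter_upwards [h1.eventually_lt_const hw', Filter.eventually_ge_atTop 1] with T hT hT1 V hV hVD Ω
  obtain ⟨h3, h4⟩ := h T hT1 V hV hVD Ω
  exact ⟨h3, h4.trans (mul_le_mul_of_nonneg_right hT.le (by positivity))⟩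

/-- For `|z| < 1` the matrices `Y(z)` lie in the torsors `G`, for all branches and all admissible equations. For every good
list `e_1, …, e_r` of hypergeometric equations with linear polynomials `ℓ_1, …, ℓ_r` and an integer `τ`
and all `k`, `g`, `d`, `δ` and `D` there are `c > 0` and `C` such that for every `ℚ`-space `V` of complex numbers of
dimension `≤ D` and all complex matrices `Ω_ij` at most `C T^(-c) N^k` of the `N^k` `k`-tuples of algebraic integers of degree
`≤ g` with conjugates of size `≤ T` are small or exceptional. In particular there is a function `w(T)` which tends to infinity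
such that this number is at most `N^k / w(T)` for all `T`, all good lists of at most `w(T)` equations and polynomials with data
of size at most `w(T)` and all parameters `k`, `g`, `d`, `δ` and `D` of size at most `w(T)`. -/
theorem result :
    (∀ e : Eqn, e.Admissible → ∀ z l : ℂ, ‖z‖ < 1 → e.Y z l ∈ e.G) ∧
    (∀ (r : ℕ) (e : Fin r → Eqn) (a b : Fin r → ℚ) (τ : ℤ), Good e a b τ → ∀ k g d δ D : ℕ, 1 ≤ g →
      ∃ c C : ℝ, 0 < c ∧ ∀ T : ℕ, 1 ≤ T → Bound k g d δ D e a b τ T (C * (T : ℝ) ^ (-c))) ∧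
    ∃ w : ℕ → ℕ, Filter.Tendsto w Filter.atTop Filter.atTop ∧ ∀ T : ℕ, ∀ r ≤ w T, ∀ (e : Fin r → Eqn) (a b : Fin r → ℚ)
      (τ : ℤ), Good e a b τ → Size e a b τ (w T) → ∀ k ≤ w T, ∀ g ≤ w T, 1 ≤ g →
      Bound k g (w T) (w T) (w T) e a b τ T (1 / (w T : ℝ)) := by
  refine ⟨fun e he z l hz => mem_G he hz l, fun r e a b τ he k g d δ D hg => fixed e a b τ he k g d δ D hg, ?_⟩
  refine diag (F := fun w T => ∀ r ≤ w, ∀ (e : Fin r → Eqn) (a b : Fin r → ℚ) (τ : ℤ), Good e a b τ → Size e a b τ w →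
    ∀ k ≤ w, ∀ g ≤ w, 1 ≤ g → Bound k g w w w e a b τ T (1 / (w : ℝ)))
    (fun T r _ e a b τ _ _ k _ g hg hg1 => by omega) fun w => ?_
  rcases Nat.eq_zero_or_pos w with rfl | hw
  · exact Filter.Eventually.of_forall fun T r _ e a b τ _ _ k _ g hg hg1 => by omega
  have h1 : ∀ᶠ T : ℕ in Filter.atTop, ∀ r ∈ Set.Iic w,
      ∀ e ∈ {e : Fin r → Eqn | ∀ j, (e j).n ≤ w ∧ ∀ i, RatSize ((e j).α i) w},
      ∀ a ∈ {a : Fin r → ℚ | ∀ j, RatSize (a j) w}, ∀ b ∈ {a : Fin r → ℚ | ∀ j, RatSize (a j) w},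
      ∀ τ ∈ {τ : ℤ | |τ| ≤ w}, ∀ k ∈ Set.Iic w, ∀ g ∈ Set.Iic w, Good e a b τ → 1 ≤ g →
        Bound k g w w w e a b τ T (1 / (w : ℝ)) := by
    rw [Filter.eventually_all_finite (Set.finite_Iic w)]
    intro r _
    rw [Filter.eventually_all_finite (eqn_finite r w)]
    intro e _
    rw [Filter.eventually_all_finite (pol_finite r w)]
    intro a _
    rw [Filter.eventually_all_finite (pol_finite r w)]
    intro b _
    rw [Filter.eventually_all_finite (int_finite w)]
    intro τ _
    rw [Filter.eventually_all_finite (Set.finite_Iic w)]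
    intro k _
    rw [Filter.eventually_all_finite (Set.finite_Iic w)]
    intro g _
    by_cases hg : Good e a b τ
    · by_cases hg1 : 1 ≤ g
      · filter_upwards [bound_ev e a b τ hg k g w hg1 hw] with T hT _ _ using hT
      · exact Filter.Eventually.of_forall fun T _ h => absurd h hg1
    · exact Filter.Eventually.of_forall fun T h => absurd h hg
  filter_upwards [h1] with T hT r hr e a b τ hg hs k hk g hgw hg1
  exact hT r hr e hs.1 a hs.2.1 b hs.2.2.1 τ hs.2.2.2 k hk g hgw hg hg1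

end Pool.Agent.Results.MP_290158_ag.CorrelatedFibres
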