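import Pool.Agent.Run7.h10.QS.K2

/-!
Degree-bounded period relations: all families.

Let `f : X → S` be a smooth projective family over `ℚ̄`, over an open subset `S` of affine space over which the relative de
Rham cohomology is trivial, and let `U` be an open subset of `S(ℂ)`. The period matrix `P` is flat for the Gauss-Manin
connection: `∂P / ∂z_x = A_x P` on `U` with matrices `A_x` of rational functions over `ℚ̄` which are regular on `U`. This is the
only property of `P` which is used. `B U P s` is the fibre over `s` of the Zariski closure over `ℚ̄` of the graph of `P`.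

1. The fibres are parallel: `B_s = P(s) P(s')⁻¹ B_{s'}` for all `s`, `s'` in `U`.
2. Let the fibre `B_{s'}` be irreducible for **one** `s'` in `U`. (This is true after a finite étale base change: it means that
   the field `ℚ̄(S)` is algebraically closed in `ℚ̄(S)(P)`.) Then at almost all algebraic points `s` of `U` the degree `δ`
   statement is true in bounded height, with `δ → ∞`: every polynomial of degree at most `δ` with coefficients in `κ(s)`, or
   in any larger number field `K` of bounded degree, of bounded height, which vanishes at `P(s)`, vanishes on `B_s`.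
3. Without the hypothesis the same is true with the images `P(s) P(s')⁻¹ S'` of all irreducible subsets `S'` of `B_{s'}` which
   contain `P(s')`.
4. In particular: if `Z_{s'} = B_{s'}` for **one** `s'`, that is if the full conjecture is true for one fibre `s'` of the
   family (over an algebraic point), then the degree `δ` statement is true in bounded height at almost all algebraic
   points. (The closure `Z_{s'}` of a point over `ℚ̄` is irreducible over `ℂ`.)

The proof of 1: the relations of `P` over `ℚ̄` form an ideal which is stable under the connection, so if they hold at one point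
`s'` for the solution `P G` of the differential equation (`G` a constant matrix), all derivatives of the relations vanish at
`s'` and they hold on `U`. For 2 and 3: the theorem on relations over the algebraic numbers between the values of arbitrary
analytic functions at almost all algebraic points (library `Run7/h10/QS`).
-/

open NumberField

namespace Pool.Agent.Results.MP_290158_ag.DegreesForAllFamilies

open Pool.Agent.Run7.h10.QS (Few Points Bounded value)

section
variable {X : Type} {ι : Type}

/-- The matrix `P` is flat for a connection over `ℚ̄` which is regular on `U`: for every coordinate `x` there are a polynomial `q`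
without zeros in `U` and a matrix `A` of polynomials, with algebraic coefficients, such that `q ∂P / ∂z_x = A P` on `U`. -/
def IsFlat [Fintype X] [DecidableEq X] [Fintype ι] (U : Set (X → ℂ)) (P : (X → ℂ) → Matrix ι ι ℂ) : Prop :=
  ∀ x : X, ∃ (q : MvPolynomial X (algebraicClosure ℚ ℂ)) (A : ι → ι → MvPolynomial X (algebraicClosure ℚ ℂ)),
    ∀ z ∈ U, MvPolynomial.aeval z q ≠ 0 ∧
      ∀ i j, MvPolynomial.aeval z q * fderiv ℂ (fun z => P z i j) z (Pi.single x 1) =
        ∑ k, MvPolynomial.aeval z (A i k) * P z k j

/-- The entries of a matrix. -/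
def entries (Y : Matrix ι ι ℂ) : ι × ι → ℂ := fun e => Y e.1 e.2

/-- `B_s`: the fibre over `s` of the Zariski closure over the field of algebraic numbers of the graph of `P`. -/
def B (U : Set (X → ℂ)) (P : (X → ℂ) → Matrix ι ι ℂ) (s : X → ℂ) : Set (Matrix ι ι ℂ) :=
  {Y | ∀ R : MvPolynomial (X ⊕ ι × ι) (algebraicClosure ℚ ℂ),
    (∀ z ∈ U, MvPolynomial.aeval (Sum.elim z (entries (P z))) R = 0) → MvPolynomial.aeval (Sum.elim s (entries Y)) R = 0}

/-- `Z_s`: the Zariski closure over the field of algebraic numbers of the point `P(s)`. -/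
def Z (P : (X → ℂ) → Matrix ι ι ℂ) (s : X → ℂ) : Set (Matrix ι ι ℂ) :=
  {Y | ∀ R : MvPolynomial (ι × ι) (algebraicClosure ℚ ℂ),
    MvPolynomial.aeval (entries (P s)) R = 0 → MvPolynomial.aeval (entries Y) R = 0}

/-- The set `S` is irreducible in the Zariski topology: if the product of two polynomials vanishes on `S`, then one of the
two does. -/
def Irred (S : Set (Matrix ι ι ℂ)) : Prop :=
  ∀ F G : MvPolynomial (ι × ι) ℂ,
    (∀ Y ∈ S, MvPolynomial.eval (entries Y) F * MvPolynomial.eval (entries Y) G = 0) →
      (∀ Y ∈ S, MvPolynomial.eval (entries Y) F = 0) ∨ ∀ Y ∈ S, MvPolynomial.eval (entries Y) G = 0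

/-- The points `s` over `K` at which the statement in degree `k` and height `T ^ k` is wrong: some polynomial in the matrix
entries of degree at most `k` in each of them, with coefficients in the integers of `K` all conjugates of which are at most
`T ^ k`, vanishes at `P(s)` but not on `B_s`. -/
def Wrong [Fintype X] (K : Type) [Field K] [NumberField K] (U : Set (X → ℂ)) (P : (X → ℂ) → Matrix ι ι ℂ)
    (io : K →+* ℂ) (k : ℕ) (T : ℝ) : Set (X → K) :=
  {s | s ∈ Points K U io k T ∧ ∃ R : MvPolynomial (ι × ι) (𝓞 K), Bounded K k T R ∧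
    value io R (entries (P fun x => io (s x))) = 0 ∧ ∃ Y ∈ B U P fun x => io (s x), value io R (entries Y) ≠ 0}

/-- The points `s` over `K` at which some such polynomial vanishes at `P(s)` but not on the image `P(s) P(s')⁻¹ S'` of some
irreducible subset `S'` of `B_{s'}` which contains `P(s')`, for some `s'` in `U`; `Q` is the inverse of `P`. -/
def WrongOn [Fintype X] [Fintype ι] (K : Type) [Field K] [NumberField K] (U : Set (X → ℂ))
    (P Q : (X → ℂ) → Matrix ι ι ℂ) (io : K →+* ℂ) (k : ℕ) (T : ℝ) : Set (X → K) :=
  {s | s ∈ Points K U io k T ∧ ∃ R : MvPolynomial (ι × ι) (𝓞 K), Bounded K k T R ∧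
    value io R (entries (P fun x => io (s x))) = 0 ∧
    ∃ s' ∈ U, ∃ S' : Set (Matrix ι ι ℂ), Irred S' ∧ P s' ∈ S' ∧ S' ⊆ B U P s' ∧
      ∃ Y ∈ S', value io R (entries ((P fun x => io (s x)) * Q s' * Y)) ≠ 0}

end

theorem parallel {X : Type} [Fintype X] [DecidableEq X] {ι : Type} [Fintype ι] [DecidableEq ι]
    {U : Set (X → ℂ)} (hUo : IsOpen U) (hU : IsPreconnected U) {P Q : (X → ℂ) → Matrix ι ι ℂ}
    (hP : ∀ i j, AnalyticOnNhd ℂ (fun z => P z i j) U) (hPQ : ∀ z ∈ U, P z * Q z = 1) (hflat : IsFlat U P)
    {s s' : X → ℂ} (hs : s ∈ U) (hs' : s' ∈ U) {Y : Matrix ι ι ℂ} (hY : Y ∈ B U P s') : P s * Q s' * Y ∈ B U P s := by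
  choose q A hA using hflat
  intro R hR
  have h0 : ∀ R, Pool.Agent.Run7.h10.QS.Rel U P R → Pool.Agent.Run7.h10.QS.evR R s' (P s' * (Q s' * Y)) = 0 := by
    intro R hR
    rw [← mul_assoc, hPQ s' hs', one_mul]
    exact hY R hR
  have h1 := Pool.Agent.Run7.h10.QS.transport hUo hU hP (fun x z hz => (hA x z hz).1)
    (fun x i j z hz => (hA x z hz).2 i j) hs' h0 (R := R) hR s hs
  rw [← mul_assoc] at h1
  exact h1

/-- Let `U` be a nonempty open connected subset of `ℂ ^ X` and `P` an invertible analytic matrix on `U` (`Q` is its inverse)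
which is flat for a connection over `ℚ̄` regular on `U`. (1) `B_s = P(s) P(s')⁻¹ B_{s'}` for all `s`, `s'` in `U`. (2) If
`B_{s'}` is irreducible for one `s'` in `U`, there are few algebraic points `s` in `U` at which the statement in growing
degree and height is wrong (`Wrong`): there is `ω → ∞` such that for all large `T` and all number fields `K` of degree at most
`ω T`, embedded in `ℂ`, the points `s` of `U` over `K` of height at most `T` (of norm at most `ω T` and distance at least
`1 / ω T` from the complement of `U`) at which some polynomial of degree at most `ω T` in each matrix entry with coefficients in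
the integers of `K` of size at most `T ^ ω T` vanishes at `P(s)` but not on `B_s`, lie on at most `T ^ (1 / ω T)`
hypersurfaces of degree at most `T ^ (1 / ω T)`, and there are at most `T ^ (1 / ω T) * N ^ (|X| - 1)` of them, `N` being the
number of elements of `K` of height at most `T`. (3) The same holds if `Z_{s'} = B_{s'}` for one `s'` in `U`. (4) Without
hypothesis the points at which such a polynomial vanishes at `P(s)` but not on `P(s) P(s')⁻¹ S'`, for an irreducible subset
`S'` of `B_{s'}` containing `P(s')`, `s'` in `U`, are few. -/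
theorem result {X : Type} [Fintype X] [DecidableEq X] [Nonempty X] {ι : Type} [Fintype ι] [DecidableEq ι]
    {U : Set (X → ℂ)} (hUo : IsOpen U) (hU : IsPreconnected U) (hne : U.Nonempty) {P Q : (X → ℂ) → Matrix ι ι ℂ}
    (hP : ∀ i j, AnalyticOnNhd ℂ (fun z => P z i j) U) (hPQ : ∀ z ∈ U, P z * Q z = 1) (hflat : IsFlat U P) :
    (∀ s ∈ U, ∀ s' ∈ U, ∀ Y, Y ∈ B U P s' ↔ P s * Q s' * Y ∈ B U P s) ∧
    ((∃ s' ∈ U, Irred (B U P s')) → Few fun K _ _ io k T => Wrong K U P io k T) ∧
    ((∃ s' ∈ U, Z P s' = B U P s') → Few fun K _ _ io k T => Wrong K U P io k T) ∧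
    (Few fun K _ _ io k T => WrongOn K U P Q io k T) := by
  have hQP : ∀ z ∈ U, Q z * P z = 1 := fun z hz => mul_eq_one_comm.1 (hPQ z hz)
  have h1 : ∀ s ∈ U, ∀ s' ∈ U, ∀ Y, Y ∈ B U P s' ↔ P s * Q s' * Y ∈ B U P s := by
    intro s hs s' hs' Y
    refine ⟨fun h => parallel hUo hU hP hPQ hflat hs hs' h, fun h => ?_⟩
    have h2 := parallel hUo hU hP hPQ hflat hs' hs h
    have h3 : P s' * Q s * (P s * Q s' * Y) = Y := by
      calc P s' * Q s * (P s * Q s' * Y) = P s' * (Q s * P s) * Q s' * Y := by simp only [mul_assoc]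
        _ = Y := by rw [hQP s hs, mul_one, hPQ s' hs', one_mul]
    rwa [h3] at h2
  have hself : ∀ s ∈ U, P s ∈ B U P s := fun s hs R hR => hR s hs
  have h4 : Few fun K _ _ io k T => WrongOn K U P Q io k T := by
    refine Pool.Agent.Run7.h10.QS.few_mono' (Pool.Agent.Run7.h10.QS.new_few (f := fun z => entries (P z)) hU hUo hne
      (fun e => hP e.1 e.2)) ?_
    rintro K _ _ io k T hk s ⟨hs, R, hR, hR0, s', hs', S', hirr, hPS, hSB, Y, hY, hRY⟩
    have hsU : (fun x => io (s x)) ∈ U := Pool.Agent.Y890.MV.innerM_sub U hk hs.2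
    refine ⟨hs, R, hR, hR0, {a | ∃ W ∈ S', a = entries ((P fun x => io (s x)) * Q s' * W)}, ?_, ?_, ?_, ?_⟩
    · intro F G hFG
      have h5 : ∀ W ∈ S', MvPolynomial.eval (entries W) (Pool.Agent.Run7.h10.QS.linS ((P fun x => io (s x)) * Q s') F) *
          MvPolynomial.eval (entries W) (Pool.Agent.Run7.h10.QS.linS ((P fun x => io (s x)) * Q s') G) = 0 := by
        intro W hW
        have h6 := Pool.Agent.Run7.h10.QS.eval_linS ((P fun x => io (s x)) * Q s') W F
        have h7 := Pool.Agent.Run7.h10.QS.eval_linS ((P fun x => io (s x)) * Q s') W G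
        unfold entries
        rw [h6, h7]
        exact hFG _ ⟨W, hW, rfl⟩
      rcases hirr _ _ h5 with h8 | h8
      · left
        rintro _ ⟨W, hW, rfl⟩
        have h6 := Pool.Agent.Run7.h10.QS.eval_linS ((P fun x => io (s x)) * Q s') W F
        exact h6.symm.trans (h8 W hW)
      · right
        rintro _ ⟨W, hW, rfl⟩
        have h6 := Pool.Agent.Run7.h10.QS.eval_linS ((P fun x => io (s x)) * Q s') W G
        exact h6.symm.trans (h8 W hW)
    · refine ⟨P s', hPS, ?_⟩
      rw [mul_assoc, hQP s' hs', mul_one]
    · rintro _ ⟨W, hW, rfl⟩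
      exact (h1 _ hsU s' hs' W).1 (hSB hW)
    · exact ⟨_, ⟨Y, hY, rfl⟩, hRY⟩
  have h2 : (∃ s' ∈ U, Irred (B U P s')) → Few fun K _ _ io k T => Wrong K U P io k T := by
    rintro ⟨s', hs', hirr⟩
    refine Pool.Agent.Run7.h10.QS.few_mono' h4 ?_
    rintro K _ _ io k T hk s ⟨hs, R, hR, hR0, Y, hY, hRY⟩
    have hsU : (fun x => io (s x)) ∈ U := Pool.Agent.Y890.MV.innerM_sub U hk hs.2
    refine ⟨hs, R, hR, hR0, s', hs', B U P s', hirr, hself s' hs', subset_rfl, P s' * (Q fun x => io (s x)) * Y,
      (h1 s' hs' _ hsU Y).1 hY, ?_⟩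
    have h3 : (P fun x => io (s x)) * Q s' * (P s' * (Q fun x => io (s x)) * Y) = Y := by
      calc (P fun x => io (s x)) * Q s' * (P s' * (Q fun x => io (s x)) * Y) =
          (P fun x => io (s x)) * (Q s' * P s') * (Q fun x => io (s x)) * Y := by simp only [mul_assoc]
        _ = Y := by rw [hQP s' hs', mul_one, hPQ _ hsU, one_mul]
    rw [h3]
    exact hRY
  refine ⟨h1, h2, ?_, h4⟩
  rintro ⟨s', hs', hZ⟩
  refine h2 ⟨s', hs', ?_⟩
  rw [← hZ]
  intro F G hFG
  have h5 := Pool.Agent.Run7.h10.QS.irr_point (entries (P s')) F G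
  have h6 : ∀ a : ι × ι → ℂ, (∀ R : MvPolynomial (ι × ι) (algebraicClosure ℚ ℂ),
      MvPolynomial.aeval (entries (P s')) R = 0 → MvPolynomial.aeval a R = 0) →
      ∃ Y ∈ Z P s', entries Y = a := by
    intro a ha
    exact ⟨fun i j => a (i, j), ha, rfl⟩
  rcases h5 (by
    intro a ha
    obtain ⟨Y, hY, rfl⟩ := h6 a ha
    exact hFG Y hY) with h7 | h7
  · left
    exact fun Y hY => h7 _ hY
  · right
    exact fun Y hY => h7 _ hY

end Pool.Agent.Results.MP_290158_ag.DegreesForAllFamilies
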